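import Pool.Agent.Lib.TGA_h75.Atlas
import Pool.Agent.Lib.TG_h53.Trace
import Pool.Agent.Lib.TG.A5

/-!
# TANK G, END, row E5 (S2): adjoining monomials to the ring of a toric chart
-/

set_option autoImplicit false

namespace Pool.Agent.TG

open Pool.Agent.LU2 (locV le_locV locV_mono locV_le locV_inv locV_mem locV_locV)
open Pool.Agent.TGh53 (frac Nrm adj etale_ncl)

universe u

section

variable {k K : Type u} [Field k] [Field K] [Algebra k K] {V : ValuationSubring K}
  {P : Submodule k K}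

/-- The field of fractions of `NV V P` is `K`. -/
theorem exists_div_NV (hV : Ov k V) (hP : IsModel P) (hF : Fin' P) (z : K) :
    ∃ b ∈ NV V P, ∃ c ∈ NV V P, c ≠ 0 ∧ z = b / c := by
  obtain ⟨f, hf⟩ := exists_isMin hV hP
  obtain ⟨c, hc0, hc⟩ := (hF.isAlgebraic hf.ne z).exists_integral_multiple
  have hcK : (c : K) ≠ 0 := fun h => hc0 (Subtype.ext h)
  have h2 : ch P f ≤ RV V P := by
    rw [RV_eq hf]
    exact le_locV _
  refine ⟨(c : K) * z, ?_, c, RV_le_NV (h2 c.2), hcK, ?_⟩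
  · have h3 : (c : K) * z ∈ ncl (ch P f) := by
      rw [Algebra.smul_def] at hc
      exact hc
    exact le_locV _ (ncl_mono h2 h3)
  · rw [mul_div_cancel_left₀ _ hcK]

theorem tor_mono {r D : ℕ} (x : Fin r → K) (y : Fin D → K) {T T' : Set (Fin r → ℤ)}
    (h : T ⊆ T') : tor k x y T ≤ tor k x y T' :=
  Algebra.adjoin_mono (Set.union_subset_union_left _ (Set.image_mono h))

theorem mon_mem_tor {r D : ℕ} (x : Fin r → K) (y : Fin D → K) {T : Set (Fin r → ℤ)}
    {m : Fin r → ℤ} (h : m ∈ T) : mon x m ∈ tor k x y T :=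
  Algebra.subset_adjoin (Or.inl ⟨m, h, rfl⟩)

theorem y_mem_tor {r D : ℕ} (x : Fin r → K) (y : Fin D → K) (T : Set (Fin r → ℤ)) (i : Fin D) :
    y i ∈ tor k x y T :=
  Algebra.subset_adjoin (Or.inr ⟨i, rfl⟩)

theorem mem_valuationSubring_of_pow {x : K} {N : ℕ} (hN : 0 < N) (h : x ^ N ∈ V) : x ∈ V := by
  rcases V.mem_or_inv_mem x with h1 | h1
  · exact h1
  · obtain ⟨M, rfl⟩ : ∃ M, N = M + 1 := ⟨N - 1, by omega⟩
    by_cases h0 : x = 0
    · rw [h0]; exact V.zero_mem
    · have h2 : x = x ^ (M + 1) * (x⁻¹) ^ M := by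
        rw [inv_pow, pow_succ', mul_assoc, mul_inv_cancel₀ (pow_ne_zero _ h0), mul_one]
      rw [h2]
      exact V.mul_mem _ _ h (pow_mem h1 M)

variable {n : ℕ} {ι : Type} [Fintype ι] [DecidableEq ι] {Q : ι → Submodule k K} {a : ι → ℕ}
  {e : ℕ}

/-- The ring of the chart and its étale generator. -/
theorem TChart.adj_le (C : TChart n P Q a e) (hV : ZDim k V) (hVF : ∀ z ∈ C.F, z ∈ V) :
    adj (tor k C.x C.y (C.T : Set (Fin C.r → ℤ))) C.θ ≤ NV V P := by
  rw [C.ring V hV hVF]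
  exact le_locV _

theorem TChart.tor_le (C : TChart n P Q a e) (hV : ZDim k V) (hVF : ∀ z ∈ C.F, z ∈ V) :
    tor k C.x C.y (C.T : Set (Fin C.r → ℤ)) ≤ NV V P :=
  (Pool.Agent.TGh53.le_adj _ _).trans (C.adj_le hV hVF)

/-- **(S2')** Every element of `K` is a quotient of elements of `k[x^T, y][θ]`. -/
theorem TChart.exists_div (C : TChart n P Q a e) (hV : ZDim k V) (hVF : ∀ z ∈ C.F, z ∈ V)
    (hP : IsModel P) (hF : Fin' P) (z : K) :
    z ∈ frac (adj (tor k C.x C.y (C.T : Set (Fin C.r → ℤ))) C.θ) := by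
  obtain ⟨b, hb, c, hc, hc0, rfl⟩ := exists_div_NV hV.ov hP hF z
  rw [C.ring V hV hVF] at hb hc
  obtain ⟨b1, hb1, b2, hb2, hvb, rfl⟩ := hb
  obtain ⟨c1, hc1, c2, hc2, hvc, rfl⟩ := hc
  have hb20 : b2 ≠ 0 := by
    rintro rfl
    rw [map_zero] at hvb
    exact zero_ne_one hvb
  have hc10 : c1 ≠ 0 := by
    rintro rfl
    exact hc0 (zero_div _)
  refine ⟨b1 * c2, mul_mem hb1 hc2, b2 * c1, mul_mem hb2 hc1, mul_ne_zero hb20 hc10, ?_⟩
  rw [div_div_div_eq]

theorem frac_mono {A B : Subalgebra k K} (h : A ≤ B) {z : K} (hz : z ∈ frac A) : z ∈ frac B := by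
  obtain ⟨b, hb, c, hc, hc0, rfl⟩ := hz
  exact ⟨b, h hb, c, h hc, hc0, rfl⟩

theorem adj_mono {A B : Subalgebra k K} (h : A ≤ B) (θ : K) : adj A θ ≤ adj B θ :=
  Pool.Agent.TGh53.adj_le (h.trans (Pool.Agent.TGh53.le_adj _ _)) (Pool.Agent.TGh53.mem_adj _ _)

/-- **(S2)** Adjoining monomials to the ring of a toric chart. -/
theorem TChart.newRing (C : TChart n P Q a e) (hV : ZDim k V) (hVF : ∀ z ∈ C.F, z ∈ V)
    (hP : IsModel P) (hF : Fin' P) (G : Set (Fin C.r → ℤ)) (hG : ∀ g ∈ G, mon C.x g ∈ V)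
    (T' : AddSubmonoid (Fin C.r → ℤ))
    (hT' : ∀ m, m ∈ T' ↔ ∃ N : ℕ, 0 < N ∧ N • m ∈ AddSubmonoid.closure ((C.T : Set _) ∪ G))
    (hN : Nrm (tor k C.x C.y (T' : Set (Fin C.r → ℤ)))) :
    locV V (ncl (Algebra.adjoin k ((NV V P : Set K) ∪ mon C.x '' G))) =
      locV V (Algebra.adjoin k ((tor k C.x C.y (T' : Set (Fin C.r → ℤ)) : Set K) ∪ {C.θ})) := by
  have hclos : (AddSubmonoid.closure ((C.T : Set (Fin C.r → ℤ)) ∪ G)) ≤ T' := fun m hm =>
    (hT' m).2 ⟨1, one_pos, by rw [one_smul]; exact hm⟩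
  have hTT' : (C.T : Set (Fin C.r → ℤ)) ⊆ T' := fun m hm =>
    hclos (AddSubmonoid.subset_closure (Or.inl hm))
  have hGT' : G ⊆ (T' : Set (Fin C.r → ℤ)) := fun m hm =>
    hclos (AddSubmonoid.subset_closure (Or.inr hm))
  have hNVV : ∀ b ∈ NV V P, b ∈ V := fun b hb => NV_le hV.ov hP b hb
  -- monomials with exponents in the closure
  obtain ⟨B, hB⟩ : ∃ B, B = Algebra.adjoin k ((NV V P : Set K) ∪ mon C.x '' G) := ⟨_, rfl⟩
  have hNB : NV V P ≤ B := fun b hb => by rw [hB]; exact Algebra.subset_adjoin (Or.inl hb)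
  have hBV : ∀ b ∈ B, b ∈ V := by
    intro b hb
    rw [hB] at hb
    induction hb using Algebra.adjoin_induction with
    | mem x hx =>
      rcases hx with hx | ⟨g, hg, rfl⟩
      · exact hNVV x hx
      · exact hG g hg
    | algebraMap r => exact hV.ov r
    | add x y _ _ hx hy => exact V.add_mem _ _ hx hy
    | mul x y _ _ hx hy => exact V.mul_mem _ _ hx hy
  have hmonB : ∀ m ∈ AddSubmonoid.closure ((C.T : Set (Fin C.r → ℤ)) ∪ G), mon C.x m ∈ B := by
    intro m hm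
    induction hm using AddSubmonoid.closure_induction with
    | mem m hm =>
      rcases hm with hm | hm
      · exact hNB (C.tor_le hV hVF (mon_mem_tor _ _ hm))
      · rw [hB]; exact Algebra.subset_adjoin (Or.inr ⟨m, hm, rfl⟩)
    | zero => rw [mon_zero]; exact B.one_mem
    | add m m' _ _ h h' => rw [mon_add C.x_ne]; exact B.mul_mem h h'
  have hmonN : ∀ m ∈ T', mon C.x m ∈ ncl B := by
    intro m hm
    obtain ⟨N, hN0, hNm⟩ := (hT' m).1 hm
    have h1 := hmonB _ hNm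
    rw [mon_nsmul] at h1
    have h2 : IsIntegral B (mon C.x m ^ N) :=
      isIntegral_algebraMap (R := B) (A := K) (x := ⟨_, h1⟩)
    exact IsIntegral.of_pow hN0 h2
  have hAB : tor k C.x C.y (T' : Set (Fin C.r → ℤ)) ≤ ncl B := by
    refine Algebra.adjoin_le ?_
    rintro _ (⟨m, hm, rfl⟩ | ⟨i, rfl⟩)
    · exact hmonN m hm
    · exact le_ncl _ (hNB (C.tor_le hV hVF (y_mem_tor _ _ _ i)))
  have hAV : ∀ b ∈ tor k C.x C.y (T' : Set (Fin C.r → ℤ)), b ∈ V := fun b hb =>
    ncl_mem hBV b (hAB hb)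
  have hadj : adj (tor k C.x C.y (C.T : Set (Fin C.r → ℤ))) C.θ ≤
      adj (tor k C.x C.y (T' : Set (Fin C.r → ℤ))) C.θ := adj_mono (tor_mono _ _ hTT') _
  have hkey : locV V (ncl (tor k C.x C.y (T' : Set (Fin C.r → ℤ)))) =
      locV V (adj (tor k C.x C.y (T' : Set (Fin C.r → ℤ))) C.θ) :=
    etale_ncl hAV hN C.monic (fun i => tor_mono _ _ hTT' (C.coeff i)) C.root (C.der V hV hVF)
      fun z => frac_mono hadj (C.exists_div hV hVF hP hF z)
  have hfin : locV V (ncl B) = locV V (ncl (tor k C.x C.y (T' : Set (Fin C.r → ℤ)))) := by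
    apply le_antisymm
    · have h1 : B ≤ locV V (ncl (tor k C.x C.y (T' : Set (Fin C.r → ℤ)))) := by
        rw [hB]
        refine Algebra.adjoin_le ?_
        rintro _ (hx | ⟨g, hg, rfl⟩)
        · rw [hkey]
          rw [SetLike.mem_coe, C.ring V hV hVF] at hx
          exact locV_mono hadj hx
        · exact le_locV _ (le_ncl _ (mon_mem_tor _ _ (hGT' hg)))
      have h2 := locV_mono (V := V) (ncl_mono h1)
      rw [locV_ncl_locV, ncl_ncl] at h2
      exact h2
    · have h1 := ncl_mono hAB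
      rw [ncl_ncl] at h1
      exact locV_mono h1
  rw [← hB, hfin, hkey]
  rfl

/-- Reindexing of the classes of a chart. -/
def TChart.reindex {ι' : Type} [Fintype ι'] [DecidableEq ι'] (ε : ι' ≃ ι)
    (C : TChart n P Q a e) : TChart n P (fun j => Q (ε j)) (fun j => a (ε j)) e where
  F := C.F
  f := C.f
  r := C.r
  D := C.D
  dim := C.dim
  x := C.x
  x_ne := C.x_ne
  y := C.y
  ind := C.ind
  T := C.T
  T_fg := C.T_fg
  T_sat := C.T_sat
  φ := C.φ.comp
    { toFun := fun b j => b (ε.symm j)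
      map_zero' := rfl
      map_add' := fun _ _ => rfl }
  tors := fun m => by
    obtain ⟨b, hb⟩ := C.tors m
    refine ⟨fun j => b (ε j), ?_⟩
    rw [← hb, AddMonoidHom.comp_apply]
    congr 1
    funext j
    exact congrArg b (ε.apply_symm_apply j)
  θ := C.θ
  Φ := C.Φ
  monic := C.monic
  coeff := C.coeff
  root := C.root
  min := C.min
  ring := C.ring
  der := C.der
  cls := fun V hV hVF j => by
    have h1 := C.cls V hV hVF (ε j)
    have h2 : (C.φ.comp ({ toFun := fun b j => b (ε.symm j)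
                           map_zero' := rfl
                           map_add' := fun _ _ => rfl } : (ι' → ℤ) →+ (ι → ℤ)))
        (Pi.single j 1) = C.φ (Pi.single (ε j) 1) := by
      rw [AddMonoidHom.comp_apply]
      congr 1
      funext i
      change (Pi.single j 1 : ι' → ℤ) (ε.symm i) = (Pi.single (ε j) 1 : ι → ℤ) i
      rcases eq_or_ne i (ε j) with rfl | hne
      · rw [Equiv.symm_apply_apply, Pi.single_eq_same, Pi.single_eq_same]
      · rw [Pi.single_eq_of_ne hne, Pi.single_eq_of_ne]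
        rintro rfl
        exact hne (ε.apply_symm_apply i).symm
    rw [h2]
    exact h1

theorem HasAtlas.reindex {ι' : Type} [Fintype ι'] [DecidableEq ι'] (ε : ι' ≃ ι)
    (h : HasAtlas n P Q a e) : HasAtlas n P (fun j => Q (ε j)) (fun j => a (ε j)) e := by
  obtain ⟨m, C, hC⟩ := h
  exact ⟨m, fun i => (C i).reindex ε, hC⟩

end

end Pool.Agent.TG
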